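import Mathlib
import Pool.Agent.Lead.Spk

namespace Pool.Agent.Results.MP_904b92_lc.Q1
open Pool.Agent.Lead

/-- Structures with universe `Fin n` for the vocabulary with symbols `Fin k` and arities `ar`. -/
def Str {k : ℕ} (ar : Fin k → ℕ) (n : ℕ) : Type := (i : Fin k) → (Fin (ar i) → Fin n) → Prop

/-- Closed under isomorphism and induced substructures: closed under pull-back along injections. -/
def Hered {k : ℕ} {ar : Fin k → ℕ} (C : ∀ n, Str ar n → Prop) : Prop :=
  ∀ m n (f : Fin m ↪ Fin n) (A : Str ar n), C n A → C m (fun i v => A i (f ∘ v))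

/-- The number of labelled structures of `C` on `n` points. -/
noncomputable def Sp {k : ℕ} {ar : Fin k → ℕ} (C : ∀ n, Str ar n → Prop) (n : ℕ) : ℤ :=
  Nat.card {A : Str ar n // C n A}

def MCFinite (s : ℕ → ℤ) : Prop :=
  ∀ m : ℕ, 1 ≤ m → ∃ r p : ℕ, 1 ≤ r ∧ 1 ≤ p ∧ ∃ α : Fin p → ℤ,
    ∀ n ≥ r, s (n + p) ≡ ∑ i, α i * s (n + i) [ZMOD m]

def toRel (n : ℕ) : Str (fun _ : Fin 1 => 2) n ≃ Spk.Rel' n where
  toFun A a b := A 0 ![a, b]
  invFun R _ v := R (v 0) (v 1)
  left_inv A := by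
    funext i v
    obtain rfl := Subsingleton.elim i 0
    show A 0 ![v 0, v 1] = A 0 v
    congr 1
    funext j
    fin_cases j <;> rfl
  right_inv R := rfl

theorem result : ∃ (k : ℕ) (ar : Fin k → ℕ), (∀ i, 1 ≤ ar i) ∧
    ∃ C : ∀ n, Str ar n → Prop, Hered C ∧ ¬ MCFinite (Sp C) := by
  obtain ⟨S, hS⟩ := Spk.main
  refine ⟨1, fun _ => 2, fun _ => by norm_num, fun n A => Spk.C S n (toRel n A), ?_, fun h => hS ?_⟩
  · intro m n f A hA
    have := Spk.C_her S f _ hA
    convert this using 1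
    funext a b
    show A 0 (f ∘ ![a, b]) = A 0 ![f a, f b]
    congr 1
    funext j
    fin_cases j <;> rfl
  · obtain ⟨r, p, -, -, α, h⟩ := h 2 (by norm_num)
    have e : ∀ n, Sp (fun n A => Spk.C S n (toRel n A)) n = Spk.Sp (Spk.C S) n := fun n =>
      congrArg Nat.cast (Nat.card_congr ((toRel n).subtypeEquiv fun _ => Iff.rfl))
    refine ⟨r, p, α, fun n hn => ?_⟩
    have := (ZMod.intCast_eq_intCast_iff _ _ 2).2 (h n hn)
    simpa [e, add_assoc] using this

end Pool.Agent.Results.MP_904b92_lc.Q1
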